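import Pool.Agent.N127.PB.Pairs

set_option autoImplicit false

/-! # The equivariant motivic monodromy conjecture for the polynomials `∑ y_j f_j(x₀, x₁, x₂)`

The `f_j` are forms of the same degree `d > 0` in the three variables `x₀, x₁, x₂`, the `y_j` are
`r` further variables, `F = univ f = ∑ y_j f_j(x)` on `X = ℂ ^ (3 + r)`, and `I = (f_j)` is the
ideal of the coefficients. We consider the equivariant motivic zeta function
`Z_F(T) = ∑_{m ≥ 1} [X_{m,1}] L^(-m (3 + r)) T^m`, where `X_{m,1}` is the set of the `m`-jets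
`(x(t), y(t))` with `F(x(t), y(t)) = t^m` modulo `t^(m + 1)`, with the action of `μ_m`, as a class
relative to the space `ℂ ^ 3` of the `x(0)`: its image in `𝓜^μ_{ℂ ^ 3}⟦T⟧` under
`X_s → ℂ ^ 3`, `(x, y) ↦ x`. (The image in `𝓜^μ_ℂ⟦T⟧` and the parts over locally closed sets of
points `x(0)` are images of this one.)

* For fixed `x(t)` with `ord I(x(t)) = e ≤ m` the `m`-jets `y(t)` with `∑ y_j f_j(x(t)) = t^m` are
  an affine space of dimension `r (m + 1) - (m - e + 1)`. These spaces form an affine bundle with an
  affine action of `μ_m` over the set of the `m`-jets `x(t)` with `ord I(x(t)) = e`. So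
  `Z_F(T) = c + L^(r - 1) V(T) / (1 - L⁻¹ T)`, where `V(T) = ∑_e V_e T^e`,
  `V_e = L^(-3 m) [ord I(x(t)) = e]` for all `m ≥ e`, and `c = - L^(r - 1) V_0`.
* On a log resolution of `I` the set `ord I(x(t)) = e` is a union of affine bundles over products
  of `ℂ ∖ 0`-bundles over the strata `E_J°`, and `μ` acts by characters on the `ℂ ∖ 0`. Hence
  `V(T) = ∑_J [E_J°] ∏_{i ∈ J} (L - 1) L^(-ν_i) T^(N_i) / (1 - L^(-ν_i) T^(N_i))` as a class
  relative to `ℂ ^ 3`.
* The blow-up of the origin of `ℂ ^ 3` is a line bundle over the projective plane, and the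
  resolution is the pull-back of a resolution over the plane by blow-ups of points. `EquivConeForm`
  describes the resulting `V(T)`: the part over the origin, and the part over the sets `x_i ≠ 0`,
  see `PlaneRel`.

This file proves the conjecture for the image of `Z_F(T)` in `𝓜^μ_{ℂ ^ 3}⟦T⟧`: it lies in the ring
generated over `𝓜^μ_{ℂ ^ 3}` by `T` and the `1 / (1 - L⁻ⁿ Tᵃ)`, where `-n/a` is a root of the
Bernstein-Sato polynomial of `F`, except that for `-n/a = -3/d` we have to assume that one of the
Jacobian determinants of three of the `f_j` is not zero, or that the linear system spanned by the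
`f_j` satisfies one of the conditions `RootCond`. -/

namespace Pool.Agent.Results.MP_b48657_ag.ConeForms

open MvPolynomial Pool.Agent.W574.MO Pool.Agent.W574.SM Pool.Agent.W574.HS Pool.Agent.H628R4.TP
open Pool.Agent.N127.PB Pool.Agent.W574.CN

/-- `Z` is a sum of the form
`u₀ + ∑_i w_i (L - 1) L⁻¹ T^(m_i) / (1 - L⁻¹ T^(m_i)) + ∑_{P ∈ S} κ_P Z_P`, where `u₀`, `w_i`, `κ_P`
are elements of `M`, the `m_i` are the multiplicities of the curves in the zero locus `Y` of the
ideal `(f_j)` of `ℂ[u, v]`, and `Z_P` is the contribution of the fibre over the point `P`, computed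
by a sequence of blow-ups of points (`MotLocal`).

The part of the series `V(T)` of the cone over the plane `ℂ ^ 2` (with coordinates `u, v`), relative
to this cone, is such a sum: take for the curves `C_i` all the irreducible curves in `Y`, for `S` a
finite set of points of `Y` which contains the isolated points of `Y` and the singular points of the
union of the curves and the points at which the ideal is not a power of the ideal of this union, for
`u₀` and `w_i` the classes of the cones (without the vertex) over `ℂ ^ 2 ∖ Y` and over `C_i ∖ S`,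
and for `κ_P` the class of the line (without the origin) over `P`. For classes relative to `ℂ ^ 3`
these elements are independent of each other, in contrast to the case of absolute classes; here
they are arbitrary. -/
def PlaneRel {M : Type} [CommRing M] {ι : Type} (L : Mˣ) (f : ι → MvPolynomial (Fin 2) ℂ)
    (Z : PowerSeries M) : Prop :=
  ∃ (u₀ : M) (r : ℕ) (h : Fin r → MvPolynomial (Fin 2) ℂ) (m : Fin r → ℕ) (w : Fin r → M)
    (S : Finset (Fin 2 → ℂ)) (κ : (Fin 2 → ℂ) → M) (ZP : (Fin 2 → ℂ) → PowerSeries M),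
    (∀ i, IsCurve f (h i) (m i)) ∧
    (∀ P ∈ S, MotLocal L (fun j => translate P (f j)) 0 1 0 1 (ZP P)) ∧
    Z = PowerSeries.C u₀ + ∑ i, PowerSeries.C (w i) * mf L (m i) 1 +
      ∑ P ∈ S, PowerSeries.C (κ P) * ZP P

/-- `Z` is (of the form of) the image in `𝓜^μ_{ℂ ^ 3}⟦T⟧` of the equivariant motivic zeta function
`∑_{m ≥ 1} [X_{m,1}] L^(-m (3 + r)) T^m` of the polynomial `F = ∑ y_j f_j(x₀, x₁, x₂)`, where the
`f_j` are forms of degree `d`: `Z = c + V(T) / (1 - L⁻¹ T)`, where `V(T)` is the sum of the parts
over the sets of points `x(0) ≠ 0`, see `PlaneRel`, and of the part `κ₀ Z₀` over the origin, where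
`Z₀` is the local motivic zeta function of the ideal `(f_j)` at the origin, see `ConeMot`, and `κ₀`
is `L^(r + 2)` times the class of the origin. Here `M = 𝓜^μ_{ℂ ^ 3}` or any other commutative ring
with a unit `L`. -/
def EquivConeForm {M : Type} [CommRing M] {ι : Type} (L : Mˣ) (f : ι → MvPolynomial (Fin 3) ℂ)
    (d : ℕ) (Z : PowerSeries M) : Prop :=
  ∃ (c κ₀ : M) (Zc : Fin 3 → PowerSeries M) (Z₀ : PowerSeries M),
    (∀ i, PlaneRel L (fun j => deh i (f j)) (Zc i)) ∧ ConeMot L f d Z₀ ∧
    Z = PowerSeries.C c + (∑ i, Zc i + PowerSeries.C κ₀ * Z₀) * geo L 1 1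

theorem planeRel_mem {M : Type} [CommRing M] (L : Mˣ) {ι : Type} [Fintype ι] [DecidableEq ι]
    (f : ι → MvPolynomial (Fin 2) ℂ) (b : Polynomial ℂ) (hb : IsFunctionalEq f b)
    (Z : PowerSeries M) (hZ : PlaneRel L f Z) : Z ∈ DenRing L (Kb b) := by
  obtain ⟨u₀, r, h, m, w, S, κ, ZP, hC, hP, rfl⟩ := hZ
  refine Subring.add_mem _ (Subring.add_mem _ (C_mem _) ?_) ?_
  · refine Subring.sum_mem _ fun i _ => Subring.mul_mem _ (C_mem _) (mf_mem le_rfl fun _ => ?_)
    have := curve_root f b hb (h i) (m i) (hC i)
    rw [Kb, Nat.cast_one]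
    exact this
  · refine Subring.sum_mem _ fun P hPS => Subring.mul_mem _ (C_mem _) ?_
    exact point_mot L f b 1 (locEq_one f b hb) P (by rw [map_one]; exact one_ne_zero) _ (hP P hPS)

/-- **The equivariant motivic monodromy conjecture for `F = ∑ y_j f_j(x₀, x₁, x₂)`, relative to the
space of the `x`.** Let `f_j` be forms of the same degree `d > 0` in three variables, not all zero,
let `b` be a polynomial which satisfies a functional equation `b(s) F ^ s = P(s) F ^ (s + 1)` (in
particular the Bernstein-Sato polynomial of `F = ∑ y_j f_j`), and let `Z ∈ M⟦T⟧` be the image of the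
equivariant motivic zeta function of `F` in `𝓜^μ_{ℂ ^ 3}⟦T⟧`. Then `Z` lies in the ring
`M[T][(1 - L⁻ⁿ Tᵃ)⁻¹]`, where the pairs `a, n ≥ 1` are such that `-n/a` is a root of `b` or, only in
the case where the Jacobian determinants of all triples of the `f_j` vanish and the linear system
which is spanned by the `f_j` satisfies none of the conditions `RootCond`, `-n/a = -3/d`; see
`PencilPair`. -/
theorem result {M : Type} [CommRing M] (L : Mˣ) {ι : Type} [Fintype ι]
    (f : ι → MvPolynomial (Fin 3) ℂ) (d : ℕ) (hd : 0 < d) (hf : ∀ j, (f j).IsHomogeneous d)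
    (hf0 : ∃ j, f j ≠ 0) (b : Polynomial ℂ) (hb : IsBFunction (univ f) b)
    (Z : PowerSeries M) (hZ : EquivConeForm L f d Z) :
    Z ∈ DenRing L (PencilPair f d b) := by
  classical
  refine den_pencil L f d hd b (fun hc => root_form f d hd hf b hb hc) Z ?_
  obtain ⟨c, κ₀, Zc, Z₀, hZc, hZ₀, rfl⟩ := hZ
  have hb' := functionalEq_of_univ f b hb
  refine Subring.add_mem _ (C_mem _) (Subring.mul_mem _ (Subring.add_mem _ ?_ ?_)
    (geo_mem le_rfl le_rfl (pair_11 f d hf0 b hb)))
  · exact Subring.sum_mem _ fun i _ => DenRing_mono L (fun a n h => Or.inl h)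
      (planeRel_mem L _ b (functionalEq_deh i f d hf b hb') _ (hZc i))
  · exact Subring.mul_mem _ (C_mem _) (cone_mot L f d hd hf b hb' Z₀ hZ₀)

end Pool.Agent.Results.MP_b48657_ag.ConeForms
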