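import Pool.Agent.N101.CB.QMain
import Pool.Agent.W428.MOT.EShort

set_option autoImplicit false

/-! # The equivariant motivic monodromy conjecture: cubic polynomials suffice

Let `k` be a subfield of `ℂ` (a field with an embedding in `ℂ`), `f` a polynomial over `k`, in any number of
variables, and `Z_f(T) = ∑_{m ≥ 1} [X_{m,1}] 𝕃 ^ (-m n) T ^ m ∈ 𝓜^μ̂_{X_s}[[T]]` the equivariant motivic zeta
function of Denef and Loeser (`zetaE f`), with coefficients in the localised Grothendieck ring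
`𝓜^μ̂_{X_s}` (`MKMu f`) of varieties over `X_s = {f = 0}` with action of `μ̂`.

`Refined f`: `(1 - 𝕃⁻¹ T) Z_f(T)` lies in `𝓜^μ̂_{X_s}[T, 1 / (1 - 𝕃 ^ a T ^ b)]_{(a, b) ∈ S}` for a finite set `S`
such that `a / b` is a root of all `c(s)` for which `(s + 1) c(s)` satisfies a functional equation of
`f`, in particular of `b_f(s) / (s + 1)`. This refinement of Q1 treats the root `-1` (of every `b_f`)
separately; it implies Q1.

The theorem: `Refined` holds for all non-constant polynomials over `k` if and only if it holds for the cubic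
polynomials of the form `q_0(x) + ∑_k t_k q_k(x)`, where the `q_0, q_k` have degree at most two and all
monomials are squarefree (`Cub`). So Q1 for all polynomials over `k` follows from `Refined` for these
cubic polynomials.

Proof. Let `g = f + (t + v(x)) (w - u(x))`, the image of `f + t w` by an automorphism, and `G = g + y z`. The
pull-back along the section `x ↦ (x, -v(x), u(x))` (respectively `(x, -v(x), u(x), 0, 0)`) of `g = 0`
(respectively `G = 0`) over `X_s` is a ring homomorphism `𝓜^μ̂_{g = 0} → 𝓜^μ̂_{X_s}` which maps `Z_g` to the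
series `B_1` of the classes over `X_s` of the jets of `f + t w` with origin `(x, 0, 0)`; in the same way `Z_G`
is mapped to `B_2`. Let `α_N`, `τ_j` be the classes, multiplied by the powers of `𝕃`, of the jets with
`f = t ^ N mod t ^ (N + 1)`, respectively with `f = 0 mod t ^ j` (the latter do not depend on the level and on
the group `μ_N`). By solving the equations for the coefficients of `w(t)`, respectively `w(t)` and `z(t)`,
`β_{1,N} = (𝕃 - 1) 𝕃 ^ (-N) ∑_{2 ≤ j ≤ N} τ_j + 𝕃 ^ (1 - N) α_N`,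
`β_{2,N} = (𝕃 ^ 2 - 1) ∑_{2 ≤ j ≤ N} 𝕃 ^ (1 - N - j) τ_j + 𝕃 ^ (2 - 2 N) α_N`.
The `τ_j` can be eliminated without division by `𝕃 - 1`:
`𝕃 ^ 3 (1 - 𝕃⁻¹ T) Z_f(T) = (𝕃 ^ 2 + 𝕃) U_1(𝕃 T) - U_2(𝕃 ^ 2 T)`, `U_i = (1 - 𝕃⁻¹ T) B_i(T)`.
A functional equation of `f` with `(s + 1) c(s)` gives one of `f + t w` with `(s + 1) c(s + 1)`. So `Refined`
for `g` and `G` implies `Refined` for `f`; by steps of this kind with `u = x ^ a`, `v = c x ^ b`,
`c x ^ (a + b)` a monomial of `f`, all monomials become squarefree, of degree at most one in the variables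
`t`, `y` and at most two in the others. -/

namespace Pool.Agent.Results.MP_b48657_ag.CubicPolynomials

open MvPolynomial Pool.Agent.W428.MOT Pool.Agent.N101.CB
open Pool.Agent.H628R4.TP (IsBFunction)

/-- `(1 - u⁻¹ T) z` -/
noncomputable def strict {R : Type} [CommRing R] (u : Rˣ) (z : PowerSeries R) : PowerSeries R :=
  (1 - PowerSeries.C ((u⁻¹ : Rˣ) : R) * PowerSeries.X) * z

variable {k : Type} [Field k] [Algebra k ℂ]

/-- Q1 for the polynomial `f` over `k`: there is a finite set `S` of pairs `(a, b)`, `b > 0`, such that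
`Z_f(T)` lies in `𝓜^μ̂_{X_s}[T, 1 / (1 - 𝕃 ^ a T ^ b)]_{(a, b) ∈ S}` and `a / b` is a root of every `b(s)` which
satisfies a functional equation `b(s) f ^ s = P(s) f ^ (s + 1)`, in particular of the Bernstein-Sato
polynomial (so `a < 0`, by a theorem of Kashiwara). -/
def Q1 {n : ℕ} (f : MvPolynomial (Fin n) k) : Prop :=
  ∃ S : Finset (ℤ × ℤ), (∀ p ∈ S, 0 < p.2 ∧ ∀ b : Polynomial ℂ,
      IsBFunction (map (algebraMap k ℂ) f) b → b.eval ((((p.1 : ℚ) / p.2 : ℚ)) : ℂ) = 0) ∧
    InRat (LuMu f) S (zetaE f)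

/-- The refinement: `(1 - 𝕃⁻¹ T) Z_f(T)` lies in `𝓜^μ̂_{X_s}[T, 1 / (1 - 𝕃 ^ a T ^ b)]_{(a, b) ∈ S}`, where `a / b`
is a root of every `c(s)` such that `(s + 1) c(s)` satisfies a functional equation. -/
def Refined {n : ℕ} (f : MvPolynomial (Fin n) k) : Prop :=
  ∃ S : Finset (ℤ × ℤ), (∀ p ∈ S, 0 < p.2 ∧ ∀ c : Polynomial ℂ,
      IsBFunction (map (algebraMap k ℂ) f) ((Polynomial.X + 1) * c) →
        c.eval ((((p.1 : ℚ) / p.2 : ℚ)) : ℂ) = 0) ∧
    InRat (LuMu f) S (strict (LuMu f) (zetaE f))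

theorem refined_iff {n : ℕ} (f : MvPolynomial (Fin n) k) : Refined f ↔ QM.RefE f := Iff.rfl

theorem q1_of_refined {n : ℕ} (f : MvPolynomial (Fin n) k) (hf : f.totalDegree ≠ 0)
    (h : Refined f) : Q1 f := by
  classical
  obtain ⟨S, hS, hz⟩ := h
  have hfC := EM.map_deg (algebraMap k ℂ) f hf
  refine ⟨insert (-1, 1) S, fun p hp => ?_, ?_⟩
  · rcases Finset.mem_insert.1 hp with rfl | hp
    · refine ⟨one_pos, fun b hb => ?_⟩
      have h4 : ((((-1 : ℤ) : ℚ) / ((1 : ℤ) : ℚ) : ℚ) : ℂ) = -1 := by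
        push_cast
        ring
      simp only [h4]
      exact (bg _ 0 0 hfC b hb).1
    · refine ⟨(hS p hp).1, fun b hb => ?_⟩
      obtain ⟨c, hc⟩ := EM.fac (bg _ 0 0 hfC b hb).1
      subst hc
      rw [Polynomial.eval_mul, (hS p hp).2 c hb, mul_zero]
  · rw [inRat_iff, zetaE_eq, Finset.coe_insert, QM.ratRingMu_eq]
    rw [inRat_iff, zetaE_eq, QM.ratRingMu_eq, strict] at hz
    have h1 := QG.DR_mono (LuMu f) (Set.subset_insert (-1, 1) (S : Set (ℤ × ℤ))) hz
    have h2 := (QG.DR (LuMu f) (insert (-1, 1) (S : Set (ℤ × ℤ)))).mul_mem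
      (QG.gR_mem (LuMu f) (p := ((-1 : ℤ), (1 : ℤ))) (Set.mem_insert _ _)) h1
    have h3 := QG.gR_mul (LuMu f) (-1) 1 one_pos
    rw [show (1 : ℤ).toNat = 1 from rfl, zpow_neg_one, pow_one] at h3
    have h4 : QG.gR (LuMu f) (-1) 1 *
        ((1 - PowerSeries.C (((LuMu f)⁻¹ : (MKMu f)ˣ) : MKMu f) * PowerSeries.X) * zetaMu f) =
        zetaMu f := by
      rw [← mul_assoc, mul_comm (QG.gR (LuMu f) (-1) 1), h3, one_mul]
    rwa [h4] at h2

/-- **Cubic polynomials suffice for the refined equivariant motivic monodromy conjecture.** Let `k` be a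
field with an embedding in `ℂ`. The refined form implies Q1; the refined form holds for all non-constant
polynomials over `k` if and only if it holds for the cubic ones with `Cub f`; and then Q1 holds for all
non-constant polynomials over `k`. More precisely, the refined form holds for `f` if it holds for
`f + (t + v(x)) (w - u(x))` and for `f + (t + v(x)) (w - u(x)) + y z`, for any polynomials `u`, `v`. -/
theorem result (k : Type) [Field k] [Algebra k ℂ] :
    (∀ (n : ℕ) (f : MvPolynomial (Fin n) k), f.totalDegree ≠ 0 → Refined f → Q1 f) ∧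
    ((∀ (n : ℕ) (f : MvPolynomial (Fin n) k), f.totalDegree ≠ 0 → Refined f) ↔
      ∀ (n : ℕ) (f : MvPolynomial (Fin n) k), Cub f → f.totalDegree ≠ 0 → Refined f) ∧
    ((∀ (n : ℕ) (f : MvPolynomial (Fin n) k), Cub f → f.totalDegree ≠ 0 → Refined f) →
      ∀ (n : ℕ) (f : MvPolynomial (Fin n) k), f.totalDegree ≠ 0 → Q1 f) ∧
    ∀ (n : ℕ) (f u v : MvPolynomial (Fin n) k), f.totalDegree ≠ 0 → Refined (stp f u v) →
      Refined (Pool.Agent.Y229.MS.addyz (stp f u v)) → Refined f :=
  ⟨fun _ f hf h => q1_of_refined f hf h,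
    ⟨fun h n f _ hf => h n f hf, fun h n f hf => QM.refE_red h n f hf⟩,
    fun h n f hf => q1_of_refined f hf (QM.refE_red h n f hf),
    fun _ f u v hf h1 h2 => QM.refE_step f u v hf h1 h2⟩

end Pool.Agent.Results.MP_b48657_ag.CubicPolynomials
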